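import Pool.Agent.GT.StmtsF

/-!
# Squad GT (MP_ba5221_nt), block F, row F_DEG: the degree of the double
-/

set_option autoImplicit false

namespace Pool.Agent.GT.F.H9

open Polynomial Pool.Agent.NJ

noncomputable section

/-- the numerator of the doubling map -/
def FF {R : Type} [CommRing R] (E : WeierstrassCurve R) (p q : R) : R :=
  p ^ 4 - E.b₄ * p ^ 2 * q ^ 2 - 2 * E.b₆ * p * q ^ 3 - E.b₈ * q ^ 4

/-- the denominator of the doubling map -/
def GG {R : Type} [CommRing R] (E : WeierstrassCurve R) (p q : R) : R :=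
  4 * p ^ 3 * q + E.b₂ * p ^ 2 * q ^ 2 + 2 * E.b₄ * p * q ^ 3 + E.b₆ * q ^ 4

/-- a binary quartic form -/
def Hm {R : Type} [CommRing R] (k : Fin 5 → R) (p q : R) : R :=
  k 0 * p ^ 4 + k 1 * (p ^ 3 * q) + k 2 * (p ^ 2 * q ^ 2) + k 3 * (p * q ^ 3) + k 4 * q ^ 4

theorem id_p {R : Type} [CommRing R] (E : WeierstrassCurve R) :
    ∃ a b : Fin 5 → R, ∀ p q : R, Hm a p q * FF E p q + Hm b p q * GG E p q = E.Δ * p ^ 8 := by
  refine ⟨![-E.b₂ ^ 2 * E.b₈ + 9 * E.b₂ * E.b₄ * E.b₆ - 8 * E.b₄ ^ 3 - 27 * E.b₆ ^ 2,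
    2 * (2 * E.b₂ * E.b₄ * E.b₈ - 2 * E.b₄ ^ 2 * E.b₆ - 10 * E.b₆ * E.b₈),
    (-E.b₂ * E.b₆ * E.b₈ + E.b₄ * E.b₆ ^ 2) + 4 * (3 * E.b₄ ^ 2 * E.b₈ - 3 * E.b₄ * E.b₆ ^ 2),
    2 * (3 * E.b₄ * E.b₆ * E.b₈ - 3 * E.b₆ ^ 3), 0],
    ![-E.b₂ * E.b₄ * E.b₈ + E.b₄ ^ 2 * E.b₆ + 5 * E.b₆ * E.b₈,
    2 * (2 * E.b₂ * E.b₆ * E.b₈ - 2 * E.b₄ * E.b₆ ^ 2 - 10 * E.b₈ ^ 2),
    (-E.b₂ * E.b₈ ^ 2 + E.b₄ * E.b₆ * E.b₈) + 4 * (3 * E.b₄ * E.b₆ * E.b₈ - 3 * E.b₆ ^ 3),
    2 * (3 * E.b₄ * E.b₈ ^ 2 - 3 * E.b₆ ^ 2 * E.b₈), 0], fun p q => ?_⟩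
  simp only [Hm, FF, GG, WeierstrassCurve.Δ, Matrix.cons_val]
  simp only [WeierstrassCurve.b₂, WeierstrassCurve.b₄, WeierstrassCurve.b₆, WeierstrassCurve.b₈]
  ring

theorem id_q {R : Type} [CommRing R] (E : WeierstrassCurve R) :
    ∃ a b : Fin 5 → R, ∀ p q : R, Hm a p q * FF E p q + Hm b p q * GG E p q = E.Δ * q ^ 8 := by
  refine ⟨![0, 0, -48, -8 * E.b₂, E.b₂ ^ 2 - 32 * E.b₄],
    ![0, 12, -E.b₂, -10 * E.b₄, E.b₂ * E.b₄ - 27 * E.b₆], fun p q => ?_⟩
  simp only [Hm, FF, GG, WeierstrassCurve.Δ, Matrix.cons_val]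
  simp only [WeierstrassCurve.b₂, WeierstrassCurve.b₄, WeierstrassCurve.b₆, WeierstrassCurve.b₈]
  ring

theorem exists_bd (k : Fin 5 → ℚ[X]) : ∃ N : ℕ, ∀ i, (k i).natDegree ≤ N :=
  ⟨Finset.univ.sup fun i => (k i).natDegree,
    fun i => Finset.le_sup (f := fun i => (k i).natDegree) (Finset.mem_univ i)⟩

theorem nd_mul {f g : ℚ[X]} {a b : ℕ} (hf : f.natDegree ≤ a) (hg : g.natDegree ≤ b) :
    (f * g).natDegree ≤ a + b :=
  natDegree_mul_le.trans (add_le_add hf hg)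

theorem nd_pow {f : ℚ[X]} {a : ℕ} (n : ℕ) (hf : f.natDegree ≤ a) :
    (f ^ n).natDegree ≤ n * a :=
  natDegree_pow_le.trans (Nat.mul_le_mul_left n hf)

theorem nd_add {f g : ℚ[X]} {a : ℕ} (hf : f.natDegree ≤ a) (hg : g.natDegree ≤ a) :
    (f + g).natDegree ≤ a :=
  (natDegree_add_le f g).trans (max_le hf hg)

theorem hm_bd {k : Fin 5 → ℚ[X]} {N D : ℕ} (hk : ∀ i, (k i).natDegree ≤ N) {p q : ℚ[X]}
    (hp : p.natDegree ≤ D) (hq : q.natDegree ≤ D) : (Hm k p q).natDegree ≤ N + 4 * D := by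
  unfold Hm
  have h0 := nd_mul (hk 0) (nd_pow 4 hp)
  have h1 := nd_mul (hk 1) (nd_mul (nd_pow 3 hp) hq)
  have h2 := nd_mul (hk 2) (nd_mul (nd_pow 2 hp) (nd_pow 2 hq))
  have h3 := nd_mul (hk 3) (nd_mul hp (nd_pow 3 hq))
  have h4 := nd_mul (hk 4) (nd_pow 4 hq)
  refine nd_add (nd_add (nd_add (nd_add ?_ ?_) ?_) ?_) ?_
  · exact h0
  · exact h1.trans (by omega)
  · exact h2.trans (by omega)
  · exact h3.trans (by omega)
  · exact h4

/-- `8 D ≤ N + 4 D + max (deg F) (deg G)` -/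
theorem main_bd {a b : Fin 5 → ℚ[X]} {N D : ℕ} (ha : ∀ i, (a i).natDegree ≤ N)
    (hb : ∀ i, (b i).natDegree ≤ N) {p q r F G Δ : ℚ[X]} (hp : p.natDegree ≤ D)
    (hq : q.natDegree ≤ D) (hr : r.natDegree = D) (hr0 : r ≠ 0) (hΔ : Δ ≠ 0) {M : ℕ}
    (hF : F.natDegree ≤ M) (hG : G.natDegree ≤ M)
    (h : Hm a p q * F + Hm b p q * G = Δ * r ^ 8) : 4 * D ≤ M + N := by
  have h1 : (Δ * r ^ 8).natDegree ≤ N + 4 * D + M := by
    rw [← h]
    exact nd_add (nd_mul (hm_bd ha hp hq) hF) (nd_mul (hm_bd hb hp hq) hG)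
  rw [natDegree_mul hΔ (pow_ne_zero _ hr0), natDegree_pow, hr] at h1
  omega

/-- The common divisor of `F` and `G` divides the discriminant. -/
theorem dvd_disc {E : WeierstrassCurve ℚ[X]} {p q h : ℚ[X]} (hc : IsCoprime p q)
    (hF : h ∣ FF E p q) (hG : h ∣ GG E p q) : h ∣ E.Δ := by
  obtain ⟨a, b, hab⟩ := id_p E
  obtain ⟨a', b', hab'⟩ := id_q E
  have h1 : h ∣ E.Δ * p ^ 8 := by
    rw [← hab p q]
    exact dvd_add (Dvd.dvd.mul_left hF _) (Dvd.dvd.mul_left hG _)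
  have h2 : h ∣ E.Δ * q ^ 8 := by
    rw [← hab' p q]
    exact dvd_add (Dvd.dvd.mul_left hF _) (Dvd.dvd.mul_left hG _)
  have hc8 : IsCoprime (p ^ 8) (q ^ 8) := hc.pow
  obtain ⟨u, v, huv⟩ := hc8
  have : E.Δ = u * (E.Δ * p ^ 8) + v * (E.Δ * q ^ 8) := by
    linear_combination (-E.Δ) * huv
  rw [this]
  exact dvd_add (Dvd.dvd.mul_left h1 _) (Dvd.dvd.mul_left h2 _)

/-- The degree of the double, in terms of polynomials. -/
theorem poly_bd (E : WeierstrassCurve ℚ[X]) (hE : E.Δ ≠ 0) : ∃ C : ℕ, ∀ p q n d h : ℚ[X],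
    q ≠ 0 → IsCoprime p q → FF E p q = n * h → GG E p q = d * h →
    4 * max p.natDegree q.natDegree ≤ max n.natDegree d.natDegree + C := by
  obtain ⟨a, b, hab⟩ := id_p E
  obtain ⟨a', b', hab'⟩ := id_q E
  obtain ⟨N1, hN1⟩ := exists_bd a
  obtain ⟨N2, hN2⟩ := exists_bd b
  obtain ⟨N3, hN3⟩ := exists_bd a'
  obtain ⟨N4, hN4⟩ := exists_bd b'
  set N := N1 + N2 + N3 + N4 with hN
  refine ⟨E.Δ.natDegree + N, fun p q n d h hq hc hF hG => ?_⟩
  have hh : h.natDegree ≤ E.Δ.natDegree := by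
    refine natDegree_le_of_dvd (dvd_disc hc ?_ ?_) hE
    · rw [hF]; exact dvd_mul_left _ _
    · rw [hG]; exact dvd_mul_left _ _
  have hF' : (FF E p q).natDegree ≤ max n.natDegree d.natDegree + E.Δ.natDegree := by
    rw [hF]; exact nd_mul (le_max_left _ _) hh
  have hG' : (GG E p q).natDegree ≤ max n.natDegree d.natDegree + E.Δ.natDegree := by
    rw [hG]; exact nd_mul (le_max_right _ _) hh
  rcases le_total p.natDegree q.natDegree with hpq | hpq
  · rw [max_eq_right hpq]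
    have := main_bd (a := a') (b := b') (N := N) (fun i => (hN3 i).trans (by omega))
      (fun i => (hN4 i).trans (by omega)) hpq le_rfl rfl hq hE hF' hG' (hab' p q)
    omega
  · rw [max_eq_left hpq]
    by_cases hp : p = 0
    · subst hp
      simp
    · have := main_bd (a := a) (b := b) (N := N) (fun i => (hN1 i).trans (by omega))
        (fun i => (hN2 i).trans (by omega)) le_rfl hpq rfl hp hE hF' hG' (hab p q)
      omega

theorem map_FF {R S : Type} [CommRing R] [CommRing S] (f : R →+* S) (E : WeierstrassCurve R)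
    (p q : R) : FF (E.map f) (f p) (f q) = f (FF E p q) := by
  have h2 : f 2 = 2 := map_ofNat f 2
  simp [FF, h2]

theorem map_GG {R S : Type} [CommRing R] [CommRing S] (f : R →+* S) (E : WeierstrassCurve R)
    (p q : R) : GG (E.map f) (f p) (f q) = f (GG E p q) := by
  have h2 : f 2 = 2 := map_ofNat f 2
  have h4 : f 4 = 4 := map_ofNat f 4
  simp [GG, h2, h4]

theorem FF_div {K : Type} [Field K] (W : WeierstrassCurve K) (p q : K) (hq : q ≠ 0) :
    FF W p q = FF W (p / q) 1 * q ^ 4 := by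
  unfold FF
  field_simp

theorem GG_div {K : Type} [Field K] (W : WeierstrassCurve K) (p q : K) (hq : q ≠ 0) :
    GG W p q = GG W (p / q) 1 * q ^ 4 := by
  unfold GG
  field_simp

theorem eval0 {K : Type} [Field K] (W : WeierstrassCurve K) (x : K) :
    (W.addSubMap 0).eval ![x * x, x + x, 1] = FF W x 1 := by
  simp [WeierstrassCurve.addSubMap, FF]
  ring

theorem eval1 {K : Type} [Field K] (W : WeierstrassCurve K) (x : K) :
    (W.addSubMap 1).eval ![x * x, x + x, 1] = GG W x 1 := by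
  simp [WeierstrassCurve.addSubMap, GG]
  ring

theorem f_deg : ParStmt → DegStmt := by
  intro hpar hdec E hE
  obtain ⟨C, hC⟩ := poly_bd E hE
  refine ⟨C, fun P => ?_⟩
  have hEg : (gen E).Δ ≠ 0 := by
    have : (gen E).Δ = algebraMap ℚ[X] (RatFunc ℚ) E.Δ := WeierstrassCurve.map_Δ _ _
    rw [this]
    exact fun h => hE ((map_eq_zero_iff _ (IsFractionRing.injective ℚ[X] (RatFunc ℚ))).1 h)
  obtain ⟨c, hc, hcoord⟩ := hpar (RatFunc ℚ) (gen E) hEg P P
  rw [sub_self] at hcoord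
  cases P with
  | zero => simp [dP]
  | some x y hx =>
    have hx0 := hcoord 0
    have hx1 := hcoord 1
    rw [WeierstrassCurve.Affine.Point.sym2x_some_some] at hx0 hx1
    rw [eval0] at hx0
    rw [eval1] at hx1
    set i := algebraMap ℚ[X] (RatFunc ℚ) with hi
    have hinj : Function.Injective i := IsFractionRing.injective ℚ[X] (RatFunc ℚ)
    have hq : i x.denom ≠ 0 := by
      intro h
      exact x.denom_ne_zero ((map_eq_zero_iff _ hinj).1 h)
    have hxe : i x.num / i x.denom = x := RatFunc.num_div_denom x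
    have hFx : i (FF E x.num x.denom) = FF (gen E) x 1 * i x.denom ^ 4 := by
      rw [← map_FF i E, FF_div _ _ _ hq, hxe]
      rfl
    have hGx : i (GG E x.num x.denom) = GG (gen E) x 1 * i x.denom ^ 4 := by
      rw [← map_GG i E, GG_div _ _ _ hq, hxe]
      rfl
    have hcop := x.isCoprime_num_denom
    show 4 * max x.num.natDegree x.denom.natDegree ≤ _
    generalize hS : (WeierstrassCurve.Affine.Point.some x y hx +
      WeierstrassCurve.Affine.Point.some x y hx : (gen E).toAffine.Point) = S at *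
    cases S with
    | zero =>
      have hS0 : (WeierstrassCurve.Affine.Point.zero : (gen E).toAffine.Point).sym2x 0
        = ![1, 0, 0] := WeierstrassCurve.Affine.Point.sym2x_zero_zero
      rw [hS0] at hx0 hx1
      have hG0 : GG E x.num x.denom = 0 * FF E x.num x.denom := by
        rw [zero_mul]
        apply hinj
        rw [hGx, hx1]
        simp
      have := hC x.num x.denom 1 0 (FF E x.num x.denom) x.denom_ne_zero hcop
        (one_mul _).symm hG0
      simpa [dP] using this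
    | some x2 y2 h2 =>
      rw [WeierstrassCurve.Affine.Point.sym2x_some_zero] at hx0 hx1
      have h0 : FF (gen E) x 1 = c * x2 := by simpa using hx0
      have h1 : GG (gen E) x 1 = c := by simpa using hx1
      have hd : i x2.denom ≠ 0 := by
        intro h
        exact x2.denom_ne_zero ((map_eq_zero_iff _ hinj).1 h)
      have hx2 : i x2.num / i x2.denom = x2 := RatFunc.num_div_denom x2
      have hFG : FF E x.num x.denom * x2.denom = x2.num * GG E x.num x.denom := by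
        apply hinj
        rw [map_mul, map_mul, hFx, hGx, h0, h1]
        nth_rewrite 1 [← hx2]
        field_simp
      have hdvd : x2.denom ∣ GG E x.num x.denom := by
        have : x2.denom ∣ x2.num * GG E x.num x.denom := by
          rw [← hFG]; exact dvd_mul_left _ _
        exact (x2.isCoprime_num_denom.symm).dvd_of_dvd_mul_left this
      obtain ⟨h, hh⟩ := hdvd
      have hF : FF E x.num x.denom = x2.num * h := by
        apply mul_right_cancel₀ x2.denom_ne_zero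
        rw [hFG, hh]
        ring
      exact hC x.num x.denom x2.num x2.denom h x.denom_ne_zero hcop hF hh

end

end Pool.Agent.GT.F.H9
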