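import Pool.Agent.GT.StmtsB

/-!
# Squad GT, row B_CUT (helper9)
-/

namespace Pool.Agent.GT.H9

open Finset Pool.Agent.GT

theorem b_cut (hslf : SlfStmt) : CutStmt := by
  intro K η hη
  obtain ⟨ε, hε, h⟩ := hslf K η hη
  refine ⟨ε, hε, fun X _ _ μ hμ hL a u hu hb => ?_⟩
  have h1 := h X μ a (fun j b => if b = true then fun _ => 1 else u j) (fun _ _ => fun _ => 1) hμ hL
    (fun i b => Or.inr rfl) (fun i b => ?_) (fun i b x => ?_)
  · have h2 : (fun z : (Fin K → X) × (Fin K → X) => (μ a z.1 - 1) *
        ∏ j ∈ univ.erase a, ((fun (j : Fin K) (b : Bool) => if b = true then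
          (fun _ => 1 : (Fin K → X) → ℝ) else u j) j false z.1 *
          (fun (j : Fin K) (b : Bool) => if b = true then
          (fun _ => 1 : (Fin K → X) → ℝ) else u j) j true (Function.update z.1 a (z.2 a)))) =
        fun z => (μ a z.1 - 1) * ∏ j ∈ univ.erase a, u j z.1 := by
      funext z
      simp
    rw [h2, av_prod] at h1
    simpa [av_const] using h1
  · cases b
    · simpa using hu i
    · intro x s
      simp
  · cases b
    · simpa using hb i x
    · simp

end Pool.Agent.GT.H9
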