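import Pool.Agent.GT.StmtsE

/-!
# Squad GT (MP_ba5221_nt), block E, row E_REL: the real place
-/

set_option autoImplicit false

namespace Pool.Agent.GT.OF.H9

open Polynomial Pool.Agent.NJ Pool.Agent.GT.D Pool.Agent.GT.OF

theorem xc0 (D : Fin 3 → ℤ) (x w : ℤ) : Xc (rt 1 D) x w 0 = x := by
  simp [Xc, rt]

theorem xc1 (D : Fin 3 → ℤ) (x w : ℤ) : Xc (rt 1 D) x w 1 = x + D 2 * w ^ 2 := by
  simp [Xc, rt]

theorem xc2 (D : Fin 3 → ℤ) (x w : ℤ) : Xc (rt 1 D) x w 2 = x - D 1 * w ^ 2 := by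
  simp [Xc, rt]

/-- a real number in the same position with respect to the roots -/
theorem exists_pos (P D : Fin 3 → ℤ) (x w : ℤ) (hP : P 0 + P 1 + P 2 = 0)
    (hD : D 0 + D 1 + D 2 = 0) (hpos : ∀ i, 0 < D i * P i) (hT : Tri (rt 1 D) x w) :
    ∃ X : ℝ, ∀ i, 0 < ((Xc (rt 1 D) x w i : ℤ) : ℝ) * (X - ((rt 1 P i : ℤ) : ℝ)) := by
  have hw : 0 < w ^ 2 := by
    have := hT.s0
    positivity
  have hw1 : (1 : ℤ) ≤ w ^ 2 := hw
  have h0 := hT.ne 0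
  have h1 := hT.ne 1
  have h2 := hT.ne 2
  have hsq : 0 < Xc (rt 1 D) x w 0 * Xc (rt 1 D) x w 1 * Xc (rt 1 D) x w 2 := by
    have hn : Xc (rt 1 D) x w 0 * Xc (rt 1 D) x w 1 * Xc (rt 1 D) x w 2 ≠ 0 :=
      mul_ne_zero (mul_ne_zero h0 h1) h2
    exact lt_of_le_of_ne hT.sq.nonneg hn.symm
  have e0 : ((rt 1 P 0 : ℤ) : ℝ) = 0 := by simp [rt]
  have e1 : ((rt 1 P 1 : ℤ) : ℝ) = -(P 2 : ℝ) := by simp [rt]
  have e2 : ((rt 1 P 2 : ℤ) : ℝ) = (P 1 : ℝ) := by simp [rt]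
  have s0 := mul_pos_iff.1 (hpos 0)
  have s1 := mul_pos_iff.1 (hpos 1)
  have s2 := mul_pos_iff.1 (hpos 2)
  have hPr : (P 0 : ℝ) + P 1 + P 2 = 0 := by exact_mod_cast hP
  have d1 : Xc (rt 1 D) x w 1 - Xc (rt 1 D) x w 0 = D 2 * w ^ 2 := by
    rw [xc1, xc0]; ring
  have d2 : Xc (rt 1 D) x w 0 - Xc (rt 1 D) x w 2 = D 1 * w ^ 2 := by
    rw [xc2, xc0]; ring
  have d0 : Xc (rt 1 D) x w 2 - Xc (rt 1 D) x w 1 = D 0 * w ^ 2 := by
    rw [xc2, xc1]; linear_combination (-(w ^ 2)) * hD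
  clear hpos hT
  have c1 : ∃ X : ℝ, 0 < ((Xc (rt 1 D) x w 0 : ℤ) : ℝ) * (X - 0) ∧
      0 < ((Xc (rt 1 D) x w 1 : ℤ) : ℝ) * (X - (-(P 2 : ℝ))) ∧
      0 < ((Xc (rt 1 D) x w 2 : ℤ) : ℝ) * (X - (P 1 : ℝ)) := by
    generalize Xc (rt 1 D) x w 0 = a0 at *
    generalize Xc (rt 1 D) x w 1 = a1 at *
    generalize Xc (rt 1 D) x w 2 = a2 at *
    rcases lt_or_gt_of_ne h0 with g0 | g0 <;> rcases lt_or_gt_of_ne h1 with g1 | g1 <;>
      rcases lt_or_gt_of_ne h2 with g2 | g2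
    · exact absurd hsq (not_lt.2 (mul_nonpos_of_nonneg_of_nonpos
        (mul_nonneg_of_nonpos_of_nonpos g0.le g1.le) g2.le))
    · -- `a2 > 0`
      have t1 : D 1 < 0 := by
        by_contra hc
        have : 0 ≤ D 1 * w ^ 2 := mul_nonneg (not_lt.1 hc) hw.le
        omega
      have t0 : 0 < D 0 := by
        by_contra hc
        have : D 0 * w ^ 2 ≤ 0 := mul_nonpos_of_nonpos_of_nonneg (not_lt.1 hc) hw.le
        omega
      have p1 : P 1 ≤ -1 := by omega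
      have p0 : 1 ≤ P 0 := by omega
      have p1r : (P 1 : ℝ) ≤ -1 := by exact_mod_cast p1
      have p0r : (1 : ℝ) ≤ P 0 := by exact_mod_cast p0
      refine ⟨P 1 + 1 / 2, mul_pos_of_neg_of_neg (by exact_mod_cast g0) (by linarith),
        mul_pos_of_neg_of_neg (by exact_mod_cast g1) (by linarith),
        mul_pos (by exact_mod_cast g2) (by linarith)⟩
    · -- `a1 > 0`
      have t2 : 0 < D 2 := by
        by_contra hc
        have : D 2 * w ^ 2 ≤ 0 := mul_nonpos_of_nonpos_of_nonneg (not_lt.1 hc) hw.le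
        omega
      have t0 : D 0 < 0 := by
        by_contra hc
        have : 0 ≤ D 0 * w ^ 2 := mul_nonneg (not_lt.1 hc) hw.le
        omega
      have p2 : 1 ≤ P 2 := by omega
      have p0 : P 0 ≤ -1 := by omega
      have p2r : (1 : ℝ) ≤ P 2 := by exact_mod_cast p2
      have p0r : (P 0 : ℝ) ≤ -1 := by exact_mod_cast p0
      refine ⟨-P 2 + 1 / 2, mul_pos_of_neg_of_neg (by exact_mod_cast g0) (by linarith),
        mul_pos (by exact_mod_cast g1) (by linarith),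
        mul_pos_of_neg_of_neg (by exact_mod_cast g2) (by linarith)⟩
    · exact absurd hsq (not_lt.2 (mul_nonpos_of_nonpos_of_nonneg
        (mul_nonpos_of_nonpos_of_nonneg g0.le g1.le) g2.le))
    · -- `a0 > 0`
      have t2 : D 2 < 0 := by
        by_contra hc
        have : 0 ≤ D 2 * w ^ 2 := mul_nonneg (not_lt.1 hc) hw.le
        omega
      have t1 : 0 < D 1 := by
        by_contra hc
        have : D 1 * w ^ 2 ≤ 0 := mul_nonpos_of_nonpos_of_nonneg (not_lt.1 hc) hw.le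
        omega
      have p2 : P 2 ≤ -1 := by omega
      have p1 : 1 ≤ P 1 := by omega
      have p2r : (P 2 : ℝ) ≤ -1 := by exact_mod_cast p2
      have p1r : (1 : ℝ) ≤ P 1 := by exact_mod_cast p1
      refine ⟨1 / 2, mul_pos (by exact_mod_cast g0) (by linarith),
        mul_pos_of_neg_of_neg (by exact_mod_cast g1) (by linarith),
        mul_pos_of_neg_of_neg (by exact_mod_cast g2) (by linarith)⟩
    · exact absurd hsq (not_lt.2 (mul_nonpos_of_nonpos_of_nonneg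
        (mul_nonpos_of_nonneg_of_nonpos g0.le g1.le) g2.le))
    · exact absurd hsq (not_lt.2 (mul_nonpos_of_nonneg_of_nonpos
        (mul_nonneg g0.le g1.le) g2.le))
    · have b1 := neg_abs_le (P 2 : ℝ)
      have b2 := le_abs_self (P 1 : ℝ)
      have b3 := abs_nonneg (P 2 : ℝ)
      have b4 := abs_nonneg (P 1 : ℝ)
      refine ⟨|(P 1 : ℝ)| + |(P 2 : ℝ)| + 1, mul_pos (by exact_mod_cast g0) (by linarith),
        mul_pos (by exact_mod_cast g1) (by linarith),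
        mul_pos (by exact_mod_cast g2) (by linarith)⟩
  obtain ⟨X, x0, x1, x2⟩ := c1
  refine ⟨X, fun i => ?_⟩
  fin_cases i
  · show 0 < ((Xc (rt 1 D) x w 0 : ℤ) : ℝ) * (X - ((rt 1 P 0 : ℤ) : ℝ))
    rw [e0]
    exact x0
  · show 0 < ((Xc (rt 1 D) x w 1 : ℤ) : ℝ) * (X - ((rt 1 P 1 : ℤ) : ℝ))
    rw [e1]
    exact x1
  · show 0 < ((Xc (rt 1 D) x w 2 : ℤ) : ℝ) * (X - ((rt 1 P 2 : ℤ) : ℝ))
    rw [e2]
    exact x2

theorem e_rel : RelStmt := by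
  intro P D x w hP hD hpos hT
  obtain ⟨X, hX⟩ := exists_pos P D x w hP hD hpos hT
  refine ⟨fun i => Real.sqrt ((X - ((rt 1 P i : ℤ) : ℝ)) / ((Xc (rt 1 D) x w i : ℤ) : ℝ)), 1,
    fun h => one_ne_zero h.2, fun i => ?_⟩
  have key : ∀ j, ((Xc (rt 1 D) x w j : ℤ) : ℝ) *
      Real.sqrt ((X - ((rt 1 P j : ℤ) : ℝ)) / ((Xc (rt 1 D) x w j : ℤ) : ℝ)) ^ 2 =
      X - ((rt 1 P j : ℤ) : ℝ) := by
    intro j
    have hj : ((Xc (rt 1 D) x w j : ℤ) : ℝ) ≠ 0 := by exact_mod_cast hT.ne j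
    have hnn : 0 ≤ (X - ((rt 1 P j : ℤ) : ℝ)) / ((Xc (rt 1 D) x w j : ℤ) : ℝ) := by
      have := (hX j).le
      rw [div_eq_mul_inv]
      rcases mul_pos_iff.1 (hX j) with ⟨h, h'⟩ | ⟨h, h'⟩
      · exact mul_nonneg h'.le (inv_nonneg.2 h.le)
      · exact mul_nonneg_of_nonpos_of_nonpos h'.le (inv_nonpos.2 h.le)
    rw [Real.sq_sqrt hnn]
    field_simp
  rw [key, key]
  have := (rt_sub (K := 1) hP i).2.2
  have h' : ((rt 1 P (i + 1) : ℤ) : ℝ) - ((rt 1 P (i + 2) : ℤ) : ℝ) = (P i : ℝ) := by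
    have : rt 1 P (i + 1) - rt 1 P (i + 2) = P i := by rw [this, one_mul]
    exact_mod_cast this
  linear_combination -h'

end Pool.Agent.GT.OF.H9
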